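import Pool.Agent.J4H24.TU.Sem

/-!
# The upper bound for pyramids
-/

namespace Pool.Agent.J4H24.TU

open Pool.Agent.J4H24
open Real

/-- **Small unambiguous thrifty programs for pyramids.** -/
theorem upper_main {h k : ℕ} [NeZero k] (hh : 10 ^ 4 ≤ h) (hk : 2 ≤ k)
    (hkh : Real.log k ≤ h) (A : Finset (Fin k)) :
    ∃ (Q : Type) (_ : Fintype Q) (P : TH.Prog k Q), TH.Within h P ∧ TH.Thrifty P ∧
      (∀ f, (TH.val f h 0 ∈ A → ∃ L, TH.comps P f = {L}) ∧
        (TH.val f h 0 ∉ A → TH.comps P f = ∅)) ∧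
      (Fintype.card Q : ℝ) ≤ Real.exp (150000 * √((h : ℝ) * Real.log k) * Real.log h) := by
  have hh' : (10 : ℝ) ^ 4 ≤ h := by exact_mod_cast hh
  have hh0 : (0 : ℝ) < h := lt_of_lt_of_le (by norm_num) hh'
  have hk2 : (2 : ℝ) ≤ k := by exact_mod_cast hk
  have hk0 : (0 : ℝ) < k := by linarith
  have hlog2 := Real.log_two_gt_d9
  have hlog2' := Real.log_two_lt_d9
  set L := Real.log k with hL
  have hL2 : Real.log 2 ≤ L := Real.log_le_log (by norm_num) hk2
  have hL0 : 0.69 ≤ L := by linarith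
  have hLpos : 0 < L := by linarith
  set lg := Real.log h with hlg
  have hlg9 : 9 ≤ lg := by
    have h1 := Real.log_le_log (by positivity) hh'
    rw [Real.log_pow] at h1
    have h3 : (2.25 : ℝ) ≤ Real.log 10 := by
      have e : (10 : ℝ) = 2 ^ 3 * (5 / 4) := by norm_num
      rw [e, Real.log_mul (by norm_num) (by norm_num), Real.log_pow]
      have h5 : (1 - (5 / 4 : ℝ)⁻¹) ≤ Real.log (5 / 4) :=
        Real.one_sub_inv_le_log_of_pos (by norm_num)
      norm_num at h5 ⊢
      linarith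
    push_cast at h1
    linarith
  set y := √((h : ℝ) * L) with hy
  have hy2 : y ^ 2 = h * L := Real.sq_sqrt (by positivity)
  have hy0 : 0 ≤ y := Real.sqrt_nonneg _
  set ρ := √((h : ℝ) / L) with hρ
  have hρ2 : ρ ^ 2 = h / L := Real.sq_sqrt (by positivity)
  have hρ1 : 1 ≤ ρ := by
    rw [hρ]
    apply Real.one_le_sqrt.mpr
    rw [le_div_iff₀ hLpos]
    linarith
  have hρ0 : 0 < ρ := by linarith
  have hρL : ρ * L = y := by
    have h1 : (ρ * L) ^ 2 = y ^ 2 := by
      rw [mul_pow, hρ2, hy2]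
      field_simp
    exact (pow_left_inj₀ (by positivity) hy0 (by norm_num)).mp h1
  have hyρ : y * ρ = h := by
    have h1 : (y * ρ) ^ 2 = (h : ℝ) ^ 2 := by
      rw [mul_pow, hρ2, hy2]
      field_simp
    exact (pow_left_inj₀ (by positivity) hh0.le (by norm_num)).mp h1
  have hyh : y ≤ h := by
    rw [← hyρ]
    nlinarith
  have hy1 : 1 ≤ y := by
    have h1 : (1 : ℝ) ^ 2 ≤ y ^ 2 := by
      rw [hy2]
      nlinarith
    exact (abs_le_of_sq_le_sq' h1 hy0).2
  -- s
  set q := ⌈ρ⌉₊ + 1 with hq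
  have hq1 : ρ + 1 ≤ q := by
    rw [hq]
    push_cast
    linarith [Nat.le_ceil ρ]
  have hq2 : (q : ℝ) ≤ ρ + 2 := by
    rw [hq]
    push_cast
    linarith [Nat.ceil_lt_add_one hρ0.le]
  have hq2' : 2 ≤ q := by
    have : (2 : ℝ) ≤ q := by linarith
    exact_mod_cast this
  set s := Nat.clog 2 q with hs
  have hs1 : 1 ≤ s := Nat.clog_pos (by norm_num) hq2'
  have hsq : q ≤ 2 ^ s := Nat.le_pow_clog (by norm_num) q
  have hsq' : ((2 : ℝ)) ^ s ≤ 6 * ρ := by
    have h1 := Nat.pow_pred_clog_lt_self (b := 2) (by norm_num) (show 1 < q by omega)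
    rw [Nat.pred_eq_sub_one, ← hs] at h1
    have h2 : ((2 : ℝ)) ^ (s - 1) ≤ q := by exact_mod_cast h1.le
    have h3 : (2 : ℝ) ^ s = 2 * 2 ^ (s - 1) := by
      rw [← pow_succ']
      congr 1
      omega
    rw [h3]
    linarith
  have hR1 : (ρ + 1) ≤ (2 : ℝ) ^ s := by
    have : (q : ℝ) ≤ 2 ^ s := by exact_mod_cast hsq
    linarith
  have hslog : (s : ℝ) * Real.log 2 ≤ Real.log 6 + Real.log ρ := by
    have h1 := Real.log_le_log (by positivity) hsq'
    rw [Real.log_pow, Real.log_mul (by norm_num) (by positivity)] at h1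
    exact h1
  have hlogρ : Real.log ρ ≤ lg := by
    apply Real.log_le_log hρ0
    rw [← hyρ]
    nlinarith
  have hlogρ2 : Real.log ρ ≤ 1 / 2 * lg + 1 / 2 := by
    have h1 : Real.log (ρ ^ 2) = 2 * Real.log ρ := by
      rw [Real.log_pow]; norm_num
    rw [hρ2, Real.log_div (by positivity) (by positivity)] at h1
    have h2 : -1 ≤ Real.log L := by
      have h3 := Real.one_sub_inv_le_log_of_pos hLpos
      have h4 : L⁻¹ ≤ 2 := by
        rw [inv_le_comm₀ hLpos (by norm_num)]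
        linarith
      linarith
    linarith
  have hlog6 : Real.log 6 ≤ 2 := by
    have e : (6 : ℝ) = 2 ^ 2 * (3 / 2) := by norm_num
    rw [e, Real.log_mul (by norm_num) (by norm_num), Real.log_pow]
    have h1 := Real.log_le_sub_one_of_pos (show (0 : ℝ) < 3 / 2 by norm_num)
    push_cast
    linarith
  have hs2 : ((s : ℝ) + 1) ≤ 2 * lg := by
    have h1 : (s : ℝ) * 0.69 ≤ (s : ℝ) * Real.log 2 :=
      mul_le_mul_of_nonneg_left (by linarith) (by positivity)
    nlinarith
  -- D, H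
  set D := 2 ^ s - 1 with hD
  have hDR : (D : ℝ) = 2 ^ s - 1 := by
    rw [hD, Nat.cast_sub Nat.one_le_two_pow]
    push_cast
    ring
  have hDρ : ρ ≤ D := by rw [hDR]; linarith
  have hD0 : 0 < D := by
    have : (0 : ℝ) < D := by linarith
    exact_mod_cast this
  set H := h / D + 1 with hH
  have hHD : h < H * D := by
    have h1 := Nat.div_add_mod h D
    have h2 := Nat.mod_lt h hD0
    have h3 : H * D = D * (h / D) + D := by rw [hH]; ring
    omega
  have hHy : (H : ℝ) ≤ 2 * y := by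
    have h1 : ((h / D : ℕ) : ℝ) ≤ (h : ℝ) / D := Nat.cast_div_le
    have h2 : (h : ℝ) / D ≤ y := by
      rw [div_le_iff₀ (by linarith), ← hyρ]
      exact mul_le_mul_of_nonneg_left hDρ hy0
    rw [hH]
    push_cast
    linarith
  obtain ⟨Q, hQ, P, h1, h2, h3, h4⟩ := upper_fin (h := h) (s := s) (H := H) hk hs1 hHD A
  refine ⟨Q, hQ, P, h1, h2, h3, h4.trans ?_⟩
  -- the estimates
  set hp : ℝ := ((H * (s + 1) : ℕ) : ℝ) with hhp
  have hhp0 : 0 ≤ hp := by positivity
  have hhp1 : hp ≤ 4 * (y * lg) := by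
    rw [hhp]
    push_cast
    calc (H : ℝ) * (s + 1) ≤ (2 * y) * (2 * lg) :=
          mul_le_mul hHy hs2 (by positivity) (by positivity)
      _ = _ := by ring
  have hLp : Real.log ((k ^ (2 ^ s) : ℕ) : ℝ) = 2 ^ s * L := by
    push_cast
    rw [Real.log_pow]
    push_cast
    ring
  set Lp : ℝ := Real.log ((k ^ (2 ^ s) : ℕ) : ℝ) with hLpd
  have hLp1 : Lp ≤ 6 * y := by
    rw [hLp]
    calc (2 : ℝ) ^ s * L ≤ (6 * ρ) * L := mul_le_mul_of_nonneg_right hsq' hLpos.le
      _ = 6 * y := by rw [mul_assoc, hρL]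
  have hLp0 : 0 ≤ Lp := by rw [hLp]; positivity
  have hlog1 : 1 + Real.log (1 + Lp) ≤ 2 * lg := by
    have h5 : Real.log (1 + Lp) ≤ Real.log (7 * h) :=
      Real.log_le_log (by linarith) (by linarith)
    rw [Real.log_mul (by norm_num) (by positivity)] at h5
    have h6 : Real.log 7 ≤ 3 := by
      have e : (7 : ℝ) = 2 ^ 3 * (7 / 8) := by norm_num
      rw [e, Real.log_mul (by norm_num) (by norm_num), Real.log_pow]
      have h1 := Real.log_nonpos (show (0 : ℝ) ≤ 7 / 8 by norm_num) (by norm_num)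
      push_cast
      linarith
    linarith
  have hlog1' : 0 ≤ 1 + Real.log (1 + Lp) := by
    have := Real.log_nonneg (show (1 : ℝ) ≤ 1 + Lp by linarith)
    linarith
  have hylg9 : 9 * y ≤ y * lg := by
    have := mul_le_mul_of_nonneg_left hlg9 hy0
    linarith
  have hsqrt : √(hp * (Lp * (1 + Real.log (1 + Lp)))) ≤ 7 * (y * lg) := by
    apply Real.sqrt_le_iff.mpr
    refine ⟨by positivity, ?_⟩
    have h5 : Lp * (1 + Real.log (1 + Lp)) ≤ (6 * y) * (2 * lg) :=
      mul_le_mul hLp1 hlog1 hlog1' (by positivity)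
    calc hp * (Lp * (1 + Real.log (1 + Lp))) ≤ (4 * (y * lg)) * ((6 * y) * (2 * lg)) :=
          mul_le_mul hhp1 h5 (mul_nonneg hLp0 hlog1') (by positivity)
      _ = 48 * (y * lg) ^ 2 := by ring
      _ ≤ 49 * (y * lg) ^ 2 := by linarith [sq_nonneg (y * lg)]
      _ = (7 * (y * lg)) ^ 2 := by ring
  have hE1 : Real.exp (11000 * (hp + 1 + Lp + √(hp * (Lp * (1 + Real.log (1 + Lp)))))) ≤
      Real.exp (135000 * (y * lg)) := by
    apply Real.exp_le_exp.mpr
    linarith
  have hk' : ((k ^ (2 ^ s) : ℕ) : ℝ) = Real.exp Lp := by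
    rw [hLpd, Real.exp_log]
    positivity
  have hDD : ((((2 ^ s - 1) * (2 ^ s - 1) + 1 : ℕ) : ℝ)) ≤ Real.exp (18 * y) := by
    have h5 : ((((2 ^ s - 1) * (2 ^ s - 1) + 1 : ℕ) : ℝ)) ≤ ((2 : ℝ) ^ s) ^ 2 := by
      push_cast
      rw [← hD, hDR]
      have : (1 : ℝ) ≤ 2 ^ s := one_le_pow₀ (by norm_num)
      nlinarith
    have h6 : (2 : ℝ) ^ s ≤ Real.exp (9 * y) := by
      have h7 : (2 : ℝ) ^ s ≤ 9 * y := by
        have h8 : ρ * 0.69 ≤ y := by
          rw [← hρL]
          exact mul_le_mul_of_nonneg_left hL0 hρ0.le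
        linarith
      linarith [Real.add_one_le_exp (9 * y)]
    calc _ ≤ ((2 : ℝ) ^ s) ^ 2 := h5
      _ ≤ (Real.exp (9 * y)) ^ 2 := pow_le_pow_left₀ (by positivity) h6 2
      _ = Real.exp (18 * y) := by
          rw [← Real.exp_nat_mul]
          congr 1
          push_cast
          ring
  calc _ ≤ Real.exp (135000 * (y * lg)) * (Real.exp (18 * y) * Real.exp (6 * y)) := by
        rw [hk']
        apply mul_le_mul hE1 _ (by positivity) (by positivity)
        exact mul_le_mul hDD (Real.exp_le_exp.mpr hLp1) (by positivity) (by positivity)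
    _ = Real.exp (135000 * (y * lg) + (18 * y + 6 * y)) := by
        rw [← Real.exp_add, ← Real.exp_add]
    _ ≤ Real.exp (150000 * y * lg) := by
        apply Real.exp_le_exp.mpr
        have e : 150000 * y * lg = 150000 * (y * lg) := by ring
        rw [e]
        linarith

end Pool.Agent.J4H24.TU
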