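import Pool.Agent.J4H24.TU.Sim

/-!
# Pyramids over the alphabet `k` as layered graphs over the alphabet `k ^ (2 ^ s)`

A node of height `i (s + 1) + t`, `t ≤ s`, of the layered graph knows the values of `2 ^ t` successive
nodes of height `i D` of the pyramid of height `h + δ`, `D = 2 ^ s - 1`, whose lowest `δ` levels are
filled with zeros. A node of height `(i + 1) (s + 1)` is computed by a procedure which evaluates a
pyramid of height `D`.
-/

namespace Pool.Agent.J4H24.TU

open Pool.Agent.J4H24

variable {k : ℕ} [NeZero k]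

/-- The values of the extended pyramid. -/
def pv (δ : ℕ) (f : TH.Var k → Fin k) (i j : ℕ) : Fin k :=
  if i < δ then 0 else TH.val f (i - δ) j

/-- The index. -/
def ix (s j : ℕ) : Fin (2 ^ s) := ⟨j % 2 ^ s, Nat.mod_lt _ (by positivity)⟩

lemma ix_val {s j : ℕ} (h : j < 2 ^ s) : (ix s j).val = j := Nat.mod_eq_of_lt h

lemma ix_ne {s i j : ℕ} (hi : i < 2 ^ s) (hj : j < 2 ^ s) (h : i ≠ j) : ix s i ≠ ix s j := by
  intro e
  have := congrArg Fin.val e
  rw [ix_val hi, ix_val hj] at this
  exact h this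

/-- The coding of vectors. -/
def en (k s : ℕ) : (Fin (2 ^ s) → Fin k) ≃ Fin (k ^ (2 ^ s)) := finFunctionFinEquiv

/-- The variable which is asked. -/
def askv (h δ s : ℕ) (n v : ℕ) (i : ℕ) (x : Fin (2 ^ s) → Fin k) : Option (TH.Var k) :=
  if n % (s + 1) = s ∧ i % (2 ^ s - 1) + i / (2 ^ s - 1) + 1 ≤ 2 ^ s - 1 ∧
      δ ≤ n / (s + 1) * (2 ^ s - 1) + i / (2 ^ s - 1) + 1 ∧
      n / (s + 1) * (2 ^ s - 1) + i / (2 ^ s - 1) + 1 + (v + i % (2 ^ s - 1)) ≤ h + δ then
    if n / (s + 1) * (2 ^ s - 1) + i / (2 ^ s - 1) + 1 = δ then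
      some (TH.Var.leaf (v + i % (2 ^ s - 1)))
    else some (TH.Var.node (n / (s + 1) * (2 ^ s - 1) + i / (2 ^ s - 1) - δ)
      (v + i % (2 ^ s - 1)) (x (ix s (i % (2 ^ s - 1)))) (x (ix s (i % (2 ^ s - 1) + 1))))
  else none

/-- The procedures. -/
def gad (k : ℕ) [NeZero k] (h δ s : ℕ) : Pr (k ^ (2 ^ s)) k (Fin (2 ^ s) → Fin k) where
  m := (2 ^ s - 1) * (2 ^ s - 1)
  x0 := fun y => match y with
    | TD.Var.leaf _ => fun _ => 0
    | TD.Var.node _ _ a _ => (en k s).symm a
  ask := fun y i x => match y with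
    | TD.Var.leaf _ => none
    | TD.Var.node n v _ _ => askv h δ s n v i x
  upd := fun _ i x c => Function.update x (ix s (i % (2 ^ s - 1))) c
  ans := fun y x => match y with
    | TD.Var.leaf _ => en k s (fun _ => 0)
    | TD.Var.node n _ a b => if n % (s + 1) = s then en k s x else
        en k s (fun z => if z.val < 2 ^ (n % (s + 1)) then (en k s).symm a z else
          (en k s).symm b (ix s (z.val - 2 ^ (n % (s + 1)))))

/-- The layered graph: left children. -/
def lG (_ v : ℕ) : ℕ := v

/-- The layered graph: right children. -/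
def rG (s : ℕ) (n v : ℕ) : ℕ := if n % (s + 1) < s then v + 2 ^ (n % (s + 1)) else v

omit [NeZero k] in
lemma run_succ {K : ℕ} {X : Type} (A : Pr K k X) (f : TH.Var k → Fin k) (y : TD.Var K) :
    ∀ (d i : ℕ) (x : X), A.run f y (d + 1) i x = A.nxt f y (i + d) (A.run f y d i x)
  | 0, _, _ => rfl
  | d + 1, i, x => by
      show A.run f y (d + 1) (i + 1) _ = A.nxt f y (i + (d + 1)) (A.run f y d (i + 1) _)
      rw [run_succ A f y d (i + 1), show i + 1 + d = i + (d + 1) by ring]

/-- The invariant of the evaluation. -/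
lemma gad_inv {h δ s : ℕ} (hs : 1 ≤ s) (f : TH.Var k → Fin k) {n v : ℕ}
    (a b : Fin (k ^ (2 ^ s))) (hn : n % (s + 1) = s)
    (hg : v + n / (s + 1) * (2 ^ s - 1) + (2 ^ s - 1) ≤ h + δ)
    (ha : ∀ z < 2 ^ s, (en k s).symm a (ix s z) = pv δ f (n / (s + 1) * (2 ^ s - 1)) (v + z)) :
    ∀ (i t j : ℕ), i = (2 ^ s - 1) * t + j → j < 2 ^ s - 1 →
      (∀ z < j, z + t + 1 ≤ 2 ^ s - 1 → (gad k h δ s).run f (TD.Var.node n v a b) i 0
        ((en k s).symm a) (ix s z) = pv δ f (n / (s + 1) * (2 ^ s - 1) + t + 1) (v + z)) ∧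
      (∀ z, j ≤ z → z + t ≤ 2 ^ s - 1 → (gad k h δ s).run f (TD.Var.node n v a b) i 0
        ((en k s).symm a) (ix s z) = pv δ f (n / (s + 1) * (2 ^ s - 1) + t) (v + z)) := by
  have hD : 1 ≤ 2 ^ s - 1 := by
    have : 2 ^ 1 ≤ 2 ^ s := Nat.pow_le_pow_right (by norm_num) hs
    omega
  have hR : 2 ^ s - 1 < 2 ^ s := by
    have : 0 < 2 ^ s := by positivity
    omega
  set D := 2 ^ s - 1 with hDdef
  set c := n / (s + 1) * D with hc
  intro i
  induction i with
  | zero =>
    intro t j hi hj
    have ht : t = 0 := by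
      by_contra h0
      have : D * 1 ≤ D * t := Nat.mul_le_mul_left _ (by omega)
      omega
    have hj0 : j = 0 := by omega
    subst ht
    subst hj0
    refine ⟨by intro z hz; omega, ?_⟩
    intro z _ hz
    exact ha z (by omega)
  | succ i ih =>
    intro t' j' hi hj'
    -- the previous step
    obtain ⟨t, j, hi0, hj, hcase⟩ : ∃ t j, i = D * t + j ∧ j < D ∧
        ((t' = t ∧ j' = j + 1) ∨ (t' = t + 1 ∧ j' = 0 ∧ j + 1 = D)) := by
      rcases Nat.eq_zero_or_pos j' with h0 | h0
      · have ht0 : t' ≠ 0 := by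
          rintro rfl
          simp at hi
          omega
        obtain ⟨t, rfl⟩ : ∃ t, t' = t + 1 := ⟨t' - 1, by omega⟩
        refine ⟨t, D - 1, ?_, by omega, Or.inr ⟨rfl, h0, by omega⟩⟩
        have : D * (t + 1) = D * t + D := by ring
        omega
      · exact ⟨t', j' - 1, by omega, by omega, Or.inl ⟨rfl, by omega⟩⟩
    obtain ⟨ih1, ih2⟩ := ih t j hi0 hj
    have hdiv : i / D = t := by
      rw [hi0, Nat.mul_add_div (by omega), Nat.div_eq_of_lt hj, Nat.add_zero]
    have hmod : i % D = j := by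
      rw [hi0, Nat.mul_add_mod, Nat.mod_eq_of_lt hj]
    set x := (gad k h δ s).run f (TD.Var.node n v a b) i 0 ((en k s).symm a) with hx
    have hrun : (gad k h δ s).run f (TD.Var.node n v a b) (i + 1) 0 ((en k s).symm a) =
        (gad k h δ s).nxt f (TD.Var.node n v a b) i x := by
      rw [run_succ, Nat.zero_add]
    rw [hrun]
    -- the facts on the new memory
    have hnew : (j + t + 1 ≤ D → (gad k h δ s).nxt f (TD.Var.node n v a b) i x (ix s j) =
        pv δ f (c + t + 1) (v + j)) ∧
        ∀ z, z ≤ D → z ≠ j → (gad k h δ s).nxt f (TD.Var.node n v a b) i x (ix s z) =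
          x (ix s z) := by
      by_cases hact : j + t + 1 ≤ D ∧ δ ≤ c + t + 1
      · obtain ⟨hact1, hact2⟩ := hact
        have hgu : c + t + 1 + (v + j) ≤ h + δ := by omega
        by_cases hleaf : c + t + 1 = δ
        · have hask : (gad k h δ s).ask (TD.Var.node n v a b) i x =
              some (TH.Var.leaf (v + j)) := by
            show askv h δ s n v i x = _
            unfold askv
            rw [← hDdef, hdiv, hmod, ← hc, if_pos ⟨hn, hact1, hact2, hgu⟩, if_pos hleaf]
          have hn' : (gad k h δ s).nxt f (TD.Var.node n v a b) i x =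
              Function.update x (ix s j) (f (TH.Var.leaf (v + j))) := by
            unfold Pr.nxt
            rw [hask]
            show Function.update x (ix s (i % (2 ^ s - 1))) _ = _
            rw [← hDdef, hmod]
          rw [hn']
          refine ⟨fun _ => ?_, ?_⟩
          · rw [Function.update_self]
            unfold pv
            rw [if_neg (by omega), hleaf, Nat.sub_self]
            rfl
          · intro z hz hzj
            rw [Function.update_of_ne (ix_ne (by omega) (by omega) hzj)]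
        · have hask : (gad k h δ s).ask (TD.Var.node n v a b) i x =
              some (TH.Var.node (c + t - δ) (v + j) (x (ix s j)) (x (ix s (j + 1)))) := by
            show askv h δ s n v i x = _
            unfold askv
            rw [← hDdef, hdiv, hmod, ← hc, if_pos ⟨hn, hact1, hact2, hgu⟩, if_neg hleaf]
          have hn' : (gad k h δ s).nxt f (TD.Var.node n v a b) i x =
              Function.update x (ix s j)
                (f (TH.Var.node (c + t - δ) (v + j) (x (ix s j)) (x (ix s (j + 1))))) := by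
            unfold Pr.nxt
            rw [hask]
            show Function.update x (ix s (i % (2 ^ s - 1))) _ = _
            rw [← hDdef, hmod]
          rw [hn']
          refine ⟨fun _ => ?_, ?_⟩
          · rw [Function.update_self, ih2 j le_rfl (by omega), ih2 (j + 1) (by omega) (by omega)]
            unfold pv
            rw [if_neg (by omega), if_neg (by omega), if_neg (by omega)]
            have e : c + t + 1 - δ = (c + t - δ) + 1 := by omega
            rw [e]
            rfl
          · intro z hz hzj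
            rw [Function.update_of_ne (ix_ne (by omega) (by omega) hzj)]
      · have hask : (gad k h δ s).ask (TD.Var.node n v a b) i x = none := by
          show askv h δ s n v i x = _
          unfold askv
          rw [← hDdef, hdiv, hmod, ← hc, if_neg]
          rintro ⟨_, h2, h3, _⟩
          exact hact ⟨h2, h3⟩
        have hn' : (gad k h δ s).nxt f (TD.Var.node n v a b) i x = x := by
          unfold Pr.nxt
          rw [hask]
        rw [hn']
        refine ⟨fun h1 => ?_, fun z _ _ => rfl⟩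
        have h2 : c + t + 1 < δ := by
          by_contra hcon
          exact hact ⟨h1, by omega⟩
        rw [ih2 j le_rfl (by omega)]
        unfold pv
        rw [if_pos (by omega), if_pos h2]
    obtain ⟨hnew1, hnew2⟩ := hnew
    rcases hcase with ⟨rfl, rfl⟩ | ⟨rfl, rfl, hjD⟩
    · refine ⟨?_, ?_⟩
      · intro z hz hzt
        rcases Nat.lt_or_ge z j with h1 | h1
        · rw [hnew2 z (by omega) (by omega)]
          exact ih1 z h1 hzt
        · have : z = j := by omega
          subst this
          exact hnew1 hzt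
      · intro z hz hzt
        rw [hnew2 z (by omega) (by omega)]
        exact ih2 z (by omega) hzt
    · refine ⟨by intro z hz; omega, ?_⟩
      intro z _ hzt
      rw [← Nat.add_assoc]
      rcases Nat.lt_or_ge z j with h1 | h1
      · rw [hnew2 z (by omega) (by omega)]
        exact ih1 z h1 (by omega)
      · have : z = j := by omega
        subst this
        exact hnew1 (by omega)

/-- The result of the evaluation. -/
lemma gad_res {h δ s : ℕ} (hs : 1 ≤ s) (f : TH.Var k → Fin k) {n v : ℕ}
    (a b : Fin (k ^ (2 ^ s))) (hn : n % (s + 1) = s)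
    (hg : v + n / (s + 1) * (2 ^ s - 1) + (2 ^ s - 1) ≤ h + δ)
    (ha : ∀ z < 2 ^ s, (en k s).symm a (ix s z) = pv δ f (n / (s + 1) * (2 ^ s - 1)) (v + z)) :
    (en k s).symm ((gad k h δ s).inp f (TD.Var.node n v a b)) (ix s 0) =
      pv δ f (n / (s + 1) * (2 ^ s - 1) + (2 ^ s - 1)) v := by
  have hD : 1 ≤ 2 ^ s - 1 := by
    have : 2 ^ 1 ≤ 2 ^ s := Nat.pow_le_pow_right (by norm_num) hs
    omega
  have h1 := (gad_inv hs f a b hn hg ha ((2 ^ s - 1) * (2 ^ s - 1)) (2 ^ s - 1) 0 (by ring)
    (by omega)).2 0 le_rfl (by omega)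
  simp only [Nat.add_zero] at h1
  rw [← h1]
  show (en k s).symm (if n % (s + 1) = s then en k s _ else _) (ix s 0) = _
  rw [if_pos hn, Equiv.symm_apply_apply]
  rfl

/-- The asked variables are thrifty. -/
lemma gad_thrifty {h δ s : ℕ} (hs : 1 ≤ s) (f : TH.Var k → Fin k) {n v : ℕ}
    (a b : Fin (k ^ (2 ^ s))) (hn : n % (s + 1) = s)
    (hg : v + n / (s + 1) * (2 ^ s - 1) + (2 ^ s - 1) ≤ h + δ)
    (ha : ∀ z < 2 ^ s, (en k s).symm a (ix s z) = pv δ f (n / (s + 1) * (2 ^ s - 1)) (v + z))
    {i i₁ j₁ : ℕ} {a₁ b₁ : Fin k}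
    (hq : askv h δ s n v i ((gad k h δ s).run f (TD.Var.node n v a b) i 0 ((en k s).symm a)) =
      some (TH.Var.node i₁ j₁ a₁ b₁)) :
    a₁ = TH.val f i₁ j₁ ∧ b₁ = TH.val f i₁ (j₁ + 1) := by
  have hD : 1 ≤ 2 ^ s - 1 := by
    have : 2 ^ 1 ≤ 2 ^ s := Nat.pow_le_pow_right (by norm_num) hs
    omega
  have h1 := (gad_inv hs f a b hn hg ha i (i / (2 ^ s - 1)) (i % (2 ^ s - 1))
    (Nat.div_add_mod i (2 ^ s - 1)).symm (Nat.mod_lt _ (by omega))).2
  set x := (gad k h δ s).run f (TD.Var.node n v a b) i 0 ((en k s).symm a)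
  unfold askv at hq
  split_ifs at hq with h2 h3
  · simp at hq
  rw [Option.some.injEq, TH.Var.node.injEq] at hq
  obtain ⟨e1, e2, e3, e4⟩ := hq
  obtain ⟨_, h4, h5, _⟩ := h2
  have h6 := h1 (i % (2 ^ s - 1)) le_rfl (by omega)
  have h7 := h1 (i % (2 ^ s - 1) + 1) (by omega) (by omega)
  rw [h6] at e3
  rw [h7] at e4
  unfold pv at e3 e4
  rw [if_neg (by omega)] at e3 e4
  rw [← e1, ← e2]
  exact ⟨e3.symm, e4.symm⟩

end Pool.Agent.J4H24.TU
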