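import Pool.Agent.J4H24.TU.Gad
import Pool.Agent.J4H24.TW.Fin

/-!
# The program for pyramids: finite form
-/

namespace Pool.Agent.J4H24.TU

open Pool.Agent.J4H24

variable {k : ℕ} [NeZero k]

lemma divmod_last {n s : ℕ} (hn : n % (s + 1) = s) :
    (n + 1) % (s + 1) = 0 ∧ (n + 1) / (s + 1) = n / (s + 1) + 1 := by
  have h1 := Nat.div_add_mod n (s + 1)
  rw [hn] at h1
  have h2 : n + 1 = (s + 1) * (n / (s + 1) + 1) := by
    rw [Nat.mul_add, Nat.mul_one]; omega
  constructor
  · rw [h2]; exact Nat.mul_mod_right _ _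
  · conv_lhs => rw [h2]
    exact Nat.mul_div_cancel_left _ (by omega)

lemma divmod_mid {n s : ℕ} (hn : n % (s + 1) < s) :
    (n + 1) % (s + 1) = n % (s + 1) + 1 ∧ (n + 1) / (s + 1) = n / (s + 1) := by
  have h1 := Nat.div_add_mod n (s + 1)
  have h2 : n + 1 = (s + 1) * (n / (s + 1)) + (n % (s + 1) + 1) := by omega
  constructor
  · conv_lhs => rw [h2]
    rw [Nat.mul_add_mod, Nat.mod_eq_of_lt (by omega)]
  · conv_lhs => rw [h2]
    rw [Nat.mul_add_div (by omega), Nat.div_eq_of_lt (show n % (s + 1) + 1 < s + 1 by omega),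
      Nat.add_zero]

/-- The values of the layered graph. -/
lemma sem {h δ s : ℕ} (hs : 1 ≤ s) (hδ : 1 ≤ δ) (f : TH.Var k → Fin k) : ∀ (n v : ℕ),
    v + 2 ^ (n % (s + 1)) - 1 + n / (s + 1) * (2 ^ s - 1) ≤ h + δ →
    ∀ z < 2 ^ (n % (s + 1)), (en k s).symm (TD.val lG (rG s) ((gad k h δ s).inp f) n v) (ix s z) =
      pv δ f (n / (s + 1) * (2 ^ s - 1)) (v + z) := by
  have hR : 1 ≤ 2 ^ s := Nat.one_le_two_pow
  intro n
  induction n with
  | zero =>
    intro v _ z _
    show (en k s).symm (en k s (fun _ => 0)) (ix s z) = _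
    rw [Equiv.symm_apply_apply, Nat.zero_div, Nat.zero_mul]
    unfold pv
    rw [if_pos (by omega)]
  | succ n ih =>
    intro v hv z hz
    have hlt : n % (s + 1) < s + 1 := Nat.mod_lt _ (by omega)
    rcases Nat.lt_or_ge (n % (s + 1)) s with hm | hm
    · obtain ⟨e1, e2⟩ := divmod_mid hm
      rw [e1, e2] at hv
      rw [e1] at hz
      rw [e2]
      have hp : 2 ^ (n % (s + 1) + 1) = 2 ^ (n % (s + 1)) + 2 ^ (n % (s + 1)) := by
        rw [pow_succ]; ring
      have hp0 : 1 ≤ 2 ^ (n % (s + 1)) := Nat.one_le_two_pow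
      have hps : 2 ^ (n % (s + 1) + 1) ≤ 2 ^ s := Nat.pow_le_pow_right (by norm_num) (by omega)
      have er : rG s n v = v + 2 ^ (n % (s + 1)) := by
        unfold rG; rw [if_pos hm]
      have i1 := ih v (by omega)
      have i2 := ih (v + 2 ^ (n % (s + 1))) (by omega)
      rw [TD.val, er]
      show (en k s).symm (if n % (s + 1) = s then _ else en k s (fun z => _)) (ix s z) = _
      rw [if_neg (by omega), Equiv.symm_apply_apply]
      rw [ix_val (by omega)]
      by_cases hzl : z < 2 ^ (n % (s + 1))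
      · rw [if_pos hzl]
        exact i1 z hzl
      · rw [if_neg hzl, i2 (z - 2 ^ (n % (s + 1))) (by omega)]
        congr 1
        omega
    · have hm' : n % (s + 1) = s := by omega
      obtain ⟨e1, e2⟩ := divmod_last hm'
      rw [e1, e2] at hv
      rw [e1] at hz
      rw [e2]
      have hv' : v + (n / (s + 1) * (2 ^ s - 1) + (2 ^ s - 1)) ≤ h + δ := by
        have : (n / (s + 1) + 1) * (2 ^ s - 1) = n / (s + 1) * (2 ^ s - 1) + (2 ^ s - 1) := by ring
        rw [this] at hv
        simpa using hv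
      have i1 := ih v (by rw [hm']; omega)
      rw [hm'] at i1
      have hz0 : z = 0 := by simpa using hz
      subst hz0
      rw [TD.val]
      have := gad_res (h := h) (δ := δ) hs f (TD.val lG (rG s) ((gad k h δ s).inp f) n (lG n v))
        (TD.val lG (rG s) ((gad k h δ s).inp f) n (rG s n v)) hm' (v := v) (by omega) i1
      rw [this]
      congr 1
      ring

/-- The nodes below the root. -/
lemma below {s H : ℕ} (hs : 1 ≤ s) {n v : ℕ}
    (hb : TD.Below lG (rG s) (H * (s + 1)) n v) :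
    v + 2 ^ (n % (s + 1)) - 1 + n / (s + 1) * (2 ^ s - 1) ≤ H * (2 ^ s - 1) := by
  have step : ∀ n v v' : ℕ, (v' = v ∨ v' = rG s n v) →
      v + 2 ^ ((n + 1) % (s + 1)) - 1 + (n + 1) / (s + 1) * (2 ^ s - 1) ≤ H * (2 ^ s - 1) →
      v' + 2 ^ (n % (s + 1)) - 1 + n / (s + 1) * (2 ^ s - 1) ≤ H * (2 ^ s - 1) := by
    intro n v v' hv' hh
    have hlt : n % (s + 1) < s + 1 := Nat.mod_lt _ (by omega)
    have hp0 : 1 ≤ 2 ^ (n % (s + 1)) := Nat.one_le_two_pow
    rcases Nat.lt_or_ge (n % (s + 1)) s with hm | hm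
    · obtain ⟨e1, e2⟩ := divmod_mid hm
      rw [e1, e2] at hh
      have hp : 2 ^ (n % (s + 1) + 1) = 2 ^ (n % (s + 1)) + 2 ^ (n % (s + 1)) := by
        rw [pow_succ]; ring
      have er : rG s n v = v + 2 ^ (n % (s + 1)) := by
        unfold rG; rw [if_pos hm]
      rw [er] at hv'
      rcases hv' with hv' | hv' <;> omega
    · have hm' : n % (s + 1) = s := by omega
      obtain ⟨e1, e2⟩ := divmod_last hm'
      rw [e1, e2] at hh
      have er : rG s n v = v := by
        unfold rG; rw [if_neg (by omega)]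
      rw [er] at hv'
      have hv'' : v' = v := by tauto
      have : (n / (s + 1) + 1) * (2 ^ s - 1) = n / (s + 1) * (2 ^ s - 1) + (2 ^ s - 1) := by ring
      rw [this] at hh
      rw [hv'', hm']
      simp only [pow_zero] at hh
      have hR : 1 ≤ 2 ^ s := Nat.one_le_two_pow
      omega
  induction hb with
  | root =>
    rw [Nat.mul_mod_left, Nat.mul_div_cancel _ (by omega : 0 < s + 1)]
    simp
  | left _ ih => exact step _ _ _ (Or.inl rfl) ih
  | right _ ih => exact step _ _ _ (Or.inr rfl) ih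

/-- **The program for pyramids, finite form.** -/
theorem upper_fin {h s H k : ℕ} [NeZero k] (hk : 2 ≤ k) (hs : 1 ≤ s) (hH : h < H * (2 ^ s - 1))
    (A : Finset (Fin k)) :
    ∃ (Q : Type) (_ : Fintype Q) (P : TH.Prog k Q), TH.Within h P ∧ TH.Thrifty P ∧
      (∀ f, (TH.val f h 0 ∈ A → ∃ L, TH.comps P f = {L}) ∧
        (TH.val f h 0 ∉ A → TH.comps P f = ∅)) ∧
      (Fintype.card Q : ℝ) ≤
        Real.exp (11000 * (((H * (s + 1) : ℕ) : ℝ) + 1 + Real.log ((k ^ (2 ^ s) : ℕ) : ℝ) +
          √(((H * (s + 1) : ℕ) : ℝ) * (Real.log ((k ^ (2 ^ s) : ℕ) : ℝ) *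
            (1 + Real.log (1 + Real.log ((k ^ (2 ^ s) : ℕ) : ℝ))))))) *
          ((((2 ^ s - 1) * (2 ^ s - 1) + 1 : ℕ) : ℝ) * ((k ^ (2 ^ s) : ℕ) : ℝ)) := by
  classical
  have hK : 2 ≤ k ^ (2 ^ s) := le_trans hk (Nat.le_self_pow (by positivity) k)
  obtain ⟨Q, hQ, P, hT, hS, hcard⟩ := TW.tw_final lG (rG s) (H * (s + 1)) (k ^ (2 ^ s)) hK
  set δ := H * (2 ^ s - 1) - h with hδdef
  have hδ : 1 ≤ δ := by omega
  have hHδ : h + δ = H * (2 ^ s - 1) := by omega
  set G := gad k h δ s with hG
  set ok : Fin (k ^ (2 ^ s)) → Prop := fun c => (en k s).symm c (ix s 0) ∈ A with hok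
  -- the root
  have hroot : ∀ f : TH.Var k → Fin k,
      (en k s).symm (TD.val lG (rG s) (G.inp f) (H * (s + 1)) 0) (ix s 0) = TH.val f h 0 := by
    intro f
    have h1 := sem (h := h) hs hδ f (H * (s + 1)) 0 (by
      rw [Nat.mul_mod_left, Nat.mul_div_cancel _ (by omega : 0 < s + 1), hHδ]; simp) 0 (by
      rw [Nat.mul_mod_left]; simp)
    rw [Nat.mul_div_cancel _ (by omega : 0 < s + 1), ← hHδ] at h1
    rw [h1]
    unfold pv
    rw [if_neg (by omega), Nat.add_sub_cancel]
  -- the computations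
  have hcomps : ∀ (f : TH.Var k → Fin k) L, L ∈ TH.comps (sim G P ok) f ↔
      ∃ L' c, TD.Comp P (G.inp f) P.start L' c ∧ ok c ∧ L = ex G P f P.start L' := by
    intro f L
    constructor
    · intro hL
      exact comp_of_acc G P ok f L.length P.start L le_rfl hL
    · rintro ⟨L', c, h1, h2, rfl⟩
      exact acc_of_comp G P ok f h1 h2
  refine ⟨Q × Fin (G.m + 1) × (Fin (2 ^ s) → Fin k), inferInstance, sim G P ok, ?_, ?_, ?_, ?_⟩
  · -- within
    intro q w c q' he
    obtain ⟨_, he⟩ := he
    rcases he with ⟨_, _, _, he⟩ | ⟨_, he, _⟩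
    · rcases he with ⟨_, he, _⟩ | ⟨w', c', h1, h2, _⟩
      · simp at he
      · simp only [Option.some.injEq, Prod.mk.injEq] at h2
        rw [← h2.1] at h1
        rcases hy : P.query q.1 with v | ⟨n, v, a, b⟩
        · rw [hy] at h1
          change (none : Option (TH.Var k)) = some w at h1
          simp at h1
        · rw [hy] at h1
          change askv h δ s n v q.2.1.val q.2.2 = some w at h1
          unfold askv at h1
          split_ifs at h1 with h3 h4
          · rw [Option.some.injEq] at h1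
            rw [← h1]
            show 0 + (v + _) ≤ h
            omega
          · rw [Option.some.injEq] at h1
            rw [← h1]
            show _ + 1 + (v + _) ≤ h
            omega
    · simp at he
  · -- thrifty
    intro f L hL i j a b c q hm
    obtain ⟨L', c', h1, h2, rfl⟩ := (hcomps f L).mp hL
    obtain ⟨q', hq', hout, d, hd, hask⟩ := mem_ex G P f h1 hm
    have hth := hT (G.inp f) L' c' h1 q' hq' hout
    rcases hth with ⟨v, _, hy⟩ | ⟨n, v, hb, hy⟩
    · rw [hy] at hask
      change (none : Option (TH.Var k)) = some _ at hask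
      simp at hask
    · rw [hy] at hask
      change askv h δ s n v d (G.run f _ d 0 ((en k s).symm _)) = some _ at hask
      have hn : n % (s + 1) = s := by
        by_contra hcon
        unfold askv at hask
        rw [if_neg (by rintro ⟨h, _⟩; exact hcon h)] at hask
        simp at hask
      have hbl := below hs hb
      obtain ⟨e1, e2⟩ := divmod_last hn
      rw [e1, e2] at hbl
      have e3 : (n / (s + 1) + 1) * (2 ^ s - 1) = n / (s + 1) * (2 ^ s - 1) + (2 ^ s - 1) := by ring
      rw [e3] at hbl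
      simp only [pow_zero] at hbl
      have hR : 1 ≤ 2 ^ s := Nat.one_le_two_pow
      have hsem := sem (h := h) hs hδ f n v (by rw [hn]; omega)
      rw [hn] at hsem
      exact gad_thrifty hs f _ _ hn (by omega) hsem hask
  · -- solves
    intro f
    obtain ⟨L0, h1, h2⟩ := hS (G.inp f)
    constructor
    · intro hA
      refine ⟨ex G P f P.start L0, ?_⟩
      ext L
      rw [hcomps, Set.mem_singleton_iff]
      constructor
      · rintro ⟨L', c, h3, _, rfl⟩
        rw [(h2 L' c h3).1]
      · intro hL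
        refine ⟨L0, _, h1, ?_, hL⟩
        show (en k s).symm _ (ix s 0) ∈ A
        rw [hroot]
        exact hA
    · intro hA
      apply Set.eq_empty_of_forall_notMem
      intro L hL
      obtain ⟨L', c, h3, h4, _⟩ := (hcomps f L).mp hL
      have h5 := (h2 L' c h3).2
      rw [h5] at h4
      change (en k s).symm _ (ix s 0) ∈ A at h4
      rw [hroot] at h4
      exact hA h4
  · -- size
    have e : Fintype.card (Q × Fin (G.m + 1) × (Fin (2 ^ s) → Fin k)) =
        Fintype.card Q * (((2 ^ s - 1) * (2 ^ s - 1) + 1) * k ^ (2 ^ s)) := by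
      rw [Fintype.card_prod, Fintype.card_prod, Fintype.card_fin, Fintype.card_fun,
        Fintype.card_fin, Fintype.card_fin]
      rfl
    rw [e]
    push_cast at hcard ⊢
    exact mul_le_mul_of_nonneg_right (hcard.trans (min_le_left _ _)) (by positivity)

end Pool.Agent.J4H24.TU
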