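import Pool.Agent.J4H24.TH.Defs
import Pool.Agent.J4H24.TD.Defs

/-!
# Simulation of a program over a large alphabet

Every query of the program `P` (alphabet `K`) is answered by a procedure of `m` steps, which has a
memory `X` and asks variables over the alphabet `k`.
-/

namespace Pool.Agent.J4H24.TU

open Pool.Agent.J4H24

/-- The procedures. -/
structure Pr (K k : ℕ) (X : Type) where
  m : ℕ
  x0 : TD.Var K → X
  ask : TD.Var K → ℕ → X → Option (TH.Var k)
  upd : TD.Var K → ℕ → X → Fin k → X
  ans : TD.Var K → X → Fin K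

variable {K k : ℕ} {X Q : Type}

/-- The next memory. -/
def Pr.nxt (A : Pr K k X) (f : TH.Var k → Fin k) (y : TD.Var K) (i : ℕ) (x : X) : X :=
  match A.ask y i x with
  | none => x
  | some w => A.upd y i x (f w)

/-- The label of the edge. -/
def Pr.lab (A : Pr K k X) (f : TH.Var k → Fin k) (y : TD.Var K) (i : ℕ) (x : X) :
    Option (TH.Var k × Fin k) :=
  (A.ask y i x).map (fun w => (w, f w))

/-- The memory after `d` steps from step `i`. -/
def Pr.run (A : Pr K k X) (f : TH.Var k → Fin k) (y : TD.Var K) : ℕ → ℕ → X → X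
  | 0, _, x => x
  | d + 1, i, x => A.run f y d (i + 1) (A.nxt f y i x)

/-- The input of `P`. -/
def Pr.inp (A : Pr K k X) (f : TH.Var k → Fin k) : TD.Var K → Fin K :=
  fun y => A.ans y (A.run f y A.m 0 (A.x0 y))

/-- The simulating program. -/
def sim (A : Pr K k X) (P : TD.NBP K Q) (ok : Fin K → Prop) :
    TH.Prog k (Q × Fin (A.m + 1) × X) where
  start := (P.start, Fin.ofNat (A.m + 1) 0, A.x0 (P.query P.start))
  fin := fun s => ∃ c, P.out s.1 = some c ∧ ok c
  edge := fun s e s' => P.out s.1 = none ∧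
    ((s.2.1.val < A.m ∧ s'.1 = s.1 ∧ s'.2.1.val = s.2.1.val + 1 ∧
        ((A.ask (P.query s.1) s.2.1.val s.2.2 = none ∧ e = none ∧ s'.2.2 = s.2.2) ∨
          ∃ w c, A.ask (P.query s.1) s.2.1.val s.2.2 = some w ∧ e = some (w, c) ∧
            s'.2.2 = A.upd (P.query s.1) s.2.1.val s.2.2 c)) ∨
      (s.2.1.val = A.m ∧ e = none ∧ P.edge s.1 (A.ans (P.query s.1) s.2.2) s'.1 ∧
        s'.2.1.val = 0 ∧ s'.2.2 = A.x0 (P.query s'.1)))

/-- The steps of the procedure for the state `q`. -/
def segl (A : Pr K k X) (P : TD.NBP K Q) (f : TH.Var k → Fin k) (q : Q) :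
    ℕ → ℕ → X → List (Option (TH.Var k × Fin k) × (Q × Fin (A.m + 1) × X))
  | 0, _, _ => []
  | d + 1, i, x => (A.lab f (P.query q) i x,
      (q, Fin.ofNat (A.m + 1) (i + 1), A.nxt f (P.query q) i x)) ::
        segl A P f q d (i + 1) (A.nxt f (P.query q) i x)

/-- The expansion of a computation. -/
def ex (A : Pr K k X) (P : TD.NBP K Q) (f : TH.Var k → Fin k) :
    Q → List Q → List (Option (TH.Var k × Fin k) × (Q × Fin (A.m + 1) × X))
  | _, [] => []
  | q, q' :: L => segl A P f q A.m 0 (A.x0 (P.query q)) ++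
      (none, (q', Fin.ofNat (A.m + 1) 0, A.x0 (P.query q'))) :: ex A P f q' L

/-- A path to a final state with true tests. -/
def Acc {Q' : Type} (S : TH.Prog k Q') (f : TH.Var k → Fin k) (q : Q')
    (L : List (Option (TH.Var k × Fin k) × Q')) : Prop :=
  TH.Path S q L ∧ ∀ x c q', (some (x, c), q') ∈ L → f x = c

lemma acc_nil {Q' : Type} {S : TH.Prog k Q'} {f : TH.Var k → Fin k} {q : Q'} :
    Acc S f q [] ↔ S.fin q := by
  unfold Acc
  constructor
  · intro h; exact h.1
  · intro h; exact ⟨h, by intro x c q' hx; simp at hx⟩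

lemma acc_cons {Q' : Type} {S : TH.Prog k Q'} {f : TH.Var k → Fin k} {q q' : Q'}
    {e : Option (TH.Var k × Fin k)} {L : List (Option (TH.Var k × Fin k) × Q')} :
    Acc S f q ((e, q') :: L) ↔ S.edge q e q' ∧ (∀ x c, e = some (x, c) → f x = c) ∧
      Acc S f q' L := by
  unfold Acc
  constructor
  · rintro ⟨⟨h1, h2⟩, h3⟩
    refine ⟨h1, ?_, h2, ?_⟩
    · intro x c he
      exact h3 x c q' (by rw [he]; exact List.mem_cons_self)
    · intro x c q'' hx
      exact h3 x c q'' (List.mem_cons_of_mem _ hx)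
  · rintro ⟨h1, h2, h3, h4⟩
    refine ⟨⟨h1, h3⟩, ?_⟩
    intro x c q'' hx
    rcases List.mem_cons.mp hx with hx | hx
    · simp only [Prod.mk.injEq] at hx
      exact h2 x c hx.1.symm
    · exact h4 x c q'' hx

lemma ofNat_val (m i : ℕ) (h : i ≤ m) : (Fin.ofNat (m + 1) i).val = i := by
  simp only [Fin.ofNat]
  exact Nat.mod_eq_of_lt (by omega)

lemma eq_ofNat {m i : ℕ} (h : i ≤ m) {a : Fin (m + 1)} (ha : a.val = i) :
    a = Fin.ofNat (m + 1) i := by
  apply Fin.ext
  rw [ofNat_val m i h, ha]

lemma fwd (A : Pr K k X) (P : TD.NBP K Q) (ok : Fin K → Prop) (f : TH.Var k → Fin k) (q : Q)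
    (hq : P.out q = none) : ∀ (d i : ℕ) (x : X), i + d = A.m → ∀ L,
    Acc (sim A P ok) f (q, Fin.ofNat (A.m + 1) i, x) L → ∃ q' L2,
      L = segl A P f q d i x ++ (none, (q', Fin.ofNat (A.m + 1) 0, A.x0 (P.query q'))) :: L2 ∧
      P.edge q (A.ans (P.query q) (A.run f (P.query q) d i x)) q' ∧
      Acc (sim A P ok) f (q', Fin.ofNat (A.m + 1) 0, A.x0 (P.query q')) L2
  | 0, i, x, hi, L, hL => by
      have hv := ofNat_val A.m i (by omega)
      cases L with
      | nil =>
        obtain ⟨c, hc, _⟩ := acc_nil.mp hL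
        rw [hq] at hc; simp at hc
      | cons a L =>
        obtain ⟨e, s'⟩ := a
        obtain ⟨⟨_, he⟩, h2, h3⟩ := acc_cons.mp hL
        rcases he with ⟨h4, _⟩ | ⟨_, h5, h6, h7, h8⟩
        · simp only at h4
          omega
        · simp only at h5 h6 h7 h8
          obtain ⟨q', j, x'⟩ := s'
          simp only at h6 h7 h8
          have hj := eq_ofNat (Nat.zero_le A.m) h7
          subst h5
          rw [h8, hj] at h3
          exact ⟨q', L, by rw [h8, hj]; rfl, h6, h3⟩
  | d + 1, i, x, hi, L, hL => by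
      have hv := ofNat_val A.m i (by omega)
      cases L with
      | nil =>
        obtain ⟨c, hc, _⟩ := acc_nil.mp hL
        rw [hq] at hc; simp at hc
      | cons a L =>
        obtain ⟨e, s'⟩ := a
        obtain ⟨⟨_, he⟩, h2, h3⟩ := acc_cons.mp hL
        rcases he with ⟨_, h5, h6, h7⟩ | ⟨h4, _⟩
        · simp only at h5 h6 h7
          obtain ⟨q', j, x'⟩ := s'
          simp only at h5 h6 h7
          subst h5
          rw [hv] at h6 h7
          have hj := eq_ofNat (m := A.m) (i := i + 1) (by omega) h6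
          have key : e = A.lab f (P.query q') i x ∧ x' = A.nxt f (P.query q') i x := by
            rcases h7 with ⟨h8, h9, h10⟩ | ⟨w, c, h8, h9, h10⟩
            · unfold Pr.lab Pr.nxt
              rw [h8]
              exact ⟨h9, h10⟩
            · have hc := h2 w c h9
              unfold Pr.lab Pr.nxt
              rw [h8]
              simp only [Option.map_some]
              rw [hc]
              exact ⟨h9, h10⟩
          obtain ⟨k1, k2⟩ := key
          rw [hj, k2] at h3
          obtain ⟨q'', L2, h11, h12, h13⟩ := fwd A P ok f q' hq d (i + 1) _ (by omega) L h3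
          refine ⟨q'', L2, ?_, h12, h13⟩
          rw [h11, hj, k1, k2]
          rfl
        · simp only at h4
          omega

lemma bwd (A : Pr K k X) (P : TD.NBP K Q) (ok : Fin K → Prop) (f : TH.Var k → Fin k) (q : Q)
    (hq : P.out q = none) (q' : Q)
    (L2 : List (Option (TH.Var k × Fin k) × (Q × Fin (A.m + 1) × X)))
    (h2 : Acc (sim A P ok) f (q', Fin.ofNat (A.m + 1) 0, A.x0 (P.query q')) L2) :
    ∀ (d i : ℕ) (x : X), i + d = A.m →
    P.edge q (A.ans (P.query q) (A.run f (P.query q) d i x)) q' →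
    Acc (sim A P ok) f (q, Fin.ofNat (A.m + 1) i, x)
      (segl A P f q d i x ++ (none, (q', Fin.ofNat (A.m + 1) 0, A.x0 (P.query q'))) :: L2)
  | 0, i, x, hi, he => by
      have hv := ofNat_val A.m i (by omega)
      show Acc _ _ _ ((none, _) :: L2)
      rw [acc_cons]
      refine ⟨⟨hq, Or.inr ⟨?_, rfl, he, ?_, rfl⟩⟩, by intro x c h; simp at h, h2⟩
      · simp only; omega
      · exact ofNat_val A.m 0 (Nat.zero_le _)
  | d + 1, i, x, hi, he => by
      have hv := ofNat_val A.m i (by omega)
      have hv' := ofNat_val A.m (i + 1) (by omega)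
      have ih := bwd A P ok f q hq q' L2 h2 d (i + 1) (A.nxt f (P.query q) i x) (by omega) he
      show Acc _ _ _ ((A.lab f (P.query q) i x, _) :: _)
      rw [acc_cons]
      refine ⟨⟨hq, Or.inl ⟨?_, rfl, ?_, ?_⟩⟩, ?_, ih⟩
      · simp only; omega
      · simp only; omega
      · simp only [hv]
        unfold Pr.lab Pr.nxt
        rcases hA : A.ask (P.query q) i x with _ | w
        · left
          exact ⟨rfl, rfl, rfl⟩
        · right
          exact ⟨w, f w, rfl, rfl, rfl⟩
      · intro w c h
        unfold Pr.lab at h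
        rcases hA : A.ask (P.query q) i x with _ | w'
        · rw [hA] at h; simp at h
        · rw [hA] at h
          simp only [Option.map_some, Option.some.injEq, Prod.mk.injEq] at h
          rw [← h.1]; exact h.2

/-- Computations of `P` give computations of the simulation. -/
lemma acc_of_comp (A : Pr K k X) (P : TD.NBP K Q) (ok : Fin K → Prop) (f : TH.Var k → Fin k)
    {q : Q} {L : List Q} {c : Fin K} (h : TD.Comp P (A.inp f) q L c) (hc : ok c) :
    Acc (sim A P ok) f (q, Fin.ofNat (A.m + 1) 0, A.x0 (P.query q)) (ex A P f q L) := by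
  induction h with
  | stop h => exact acc_nil.mpr ⟨_, h, hc⟩
  | step h1 h2 _ ih =>
    exact bwd A P ok f _ h1 _ _ (ih hc) A.m 0 _ (by omega) h2

/-- Computations of the simulation come from computations of `P`. -/
lemma comp_of_acc (A : Pr K k X) (P : TD.NBP K Q) (ok : Fin K → Prop) (f : TH.Var k → Fin k) :
    ∀ (n : ℕ) (q : Q) L, L.length ≤ n →
    Acc (sim A P ok) f (q, Fin.ofNat (A.m + 1) 0, A.x0 (P.query q)) L →
    ∃ L' c, TD.Comp P (A.inp f) q L' c ∧ ok c ∧ L = ex A P f q L' := by
  intro n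
  induction n with
  | zero =>
    intro q L hn hL
    have : L = [] := List.length_eq_zero_iff.mp (by omega)
    subst this
    obtain ⟨c, h1, h2⟩ := acc_nil.mp hL
    exact ⟨[], c, TD.Comp.stop h1, h2, rfl⟩
  | succ n ih =>
    intro q L hn hL
    rcases hq : P.out q with _ | c
    · obtain ⟨q', L2, h1, h2, h3⟩ := fwd A P ok f q hq A.m 0 _ (by omega) L hL
      have hlen : L2.length ≤ n := by
        rw [h1, List.length_append, List.length_cons] at hn
        omega
      obtain ⟨L', c, h4, h5, h6⟩ := ih q' L2 hlen h3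
      refine ⟨q' :: L', c, TD.Comp.step hq h2 h4, h5, ?_⟩
      rw [h1, h6]
      rfl
    · cases L with
      | nil =>
        obtain ⟨c, h1, h2⟩ := acc_nil.mp hL
        exact ⟨[], c, TD.Comp.stop h1, h2, rfl⟩
      | cons a L =>
        obtain ⟨e, s'⟩ := a
        obtain ⟨⟨h1, _⟩, _⟩ := acc_cons.mp hL
        simp only at h1
        rw [hq] at h1
        simp at h1

lemma mem_segl (A : Pr K k X) (P : TD.NBP K Q) (f : TH.Var k → Fin k) (q : Q) {w : TH.Var k}
    {c : Fin k} {s : Q × Fin (A.m + 1) × X} : ∀ (d i : ℕ) (x : X),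
    (some (w, c), s) ∈ segl A P f q d i x →
    ∃ j, j < d ∧ A.ask (P.query q) (i + j) (A.run f (P.query q) j i x) = some w
  | 0, _, _, h => by simp [segl] at h
  | d + 1, i, x, h => by
      rcases List.mem_cons.mp h with h | h
      · refine ⟨0, by omega, ?_⟩
        simp only [Prod.mk.injEq] at h
        have h1 := h.1
        unfold Pr.lab at h1
        show A.ask (P.query q) i x = some w
        rcases hA : A.ask (P.query q) i x with _ | w'
        · rw [hA] at h1; simp at h1
        · rw [hA] at h1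
          simp only [Option.map_some, Option.some.injEq, Prod.mk.injEq] at h1
          rw [h1.1]
      · obtain ⟨j, h1, h2⟩ := mem_segl A P f q d (i + 1) _ h
        refine ⟨j + 1, by omega, ?_⟩
        show A.ask (P.query q) (i + (j + 1)) (A.run f (P.query q) j (i + 1) _) = some w
        rw [show i + (j + 1) = i + 1 + j by ring]
        exact h2

/-- The tests of an expanded computation. -/
lemma mem_ex (A : Pr K k X) (P : TD.NBP K Q) (f : TH.Var k → Fin k) {w : TH.Var k}
    {c : Fin k} {s : Q × Fin (A.m + 1) × X} {q : Q} {L : List Q} {c' : Fin K}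
    (h : TD.Comp P (A.inp f) q L c') (hm : (some (w, c), s) ∈ ex A P f q L) :
    ∃ q' ∈ q :: L, P.out q' = none ∧ ∃ j, j < A.m ∧
      A.ask (P.query q') j (A.run f (P.query q') j 0 (A.x0 (P.query q'))) = some w := by
  induction h with
  | stop h => simp [ex] at hm
  | @step q q' L c' h1 h2 _ ih =>
    rcases List.mem_append.mp hm with hm | hm
    · obtain ⟨j, h3, h4⟩ := mem_segl A P f q A.m 0 _ hm
      rw [Nat.zero_add] at h4
      exact ⟨q, List.mem_cons_self, h1, j, h3, h4⟩
    · rcases List.mem_cons.mp hm with hm | hm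
      · simp at hm
      · obtain ⟨q'', h3, h4⟩ := ih hm
        exact ⟨q'', List.mem_cons_of_mem _ h3, h4⟩

end Pool.Agent.J4H24.TU
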